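import Mathlib
import Pool.Agent.PudOr.Defs
import Pool.Agent.PudTal.Defs
import Pool.Agent.PudOpt.Defs

set_option autoImplicit false

/-!
# Pudlák's conjectures relative to an oracle
-/

namespace Pool.Agent.PudClass

open N68a2faeb N793a5b8e N487b59b3 Pool.Agent.Helper22 Pool.Agent.PudOr Pool.Agent.PudTal
  Pool.Agent.PudOpt
open Pool.Agent.Helper20.Cons (Tally Po)

/-- `K` is complete for the class `𝓒`, with reductions relative to `X`. -/
def CompleteRel (X : Oracle) (𝓒 : DecisionComplexityClass) (K : DecisionProblem) : Prop :=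
  K ∈ 𝓒 ∧ ∀ A ∈ 𝓒, ReducibleRel X A K

/-- `(A, B)` is a disjoint pair of languages of coNP relative to `X`. -/
def DisjointCoNPo (X : Oracle) (A B : DecisionProblem) : Prop :=
  A ∈ coNPo X ∧ B ∈ coNPo X ∧ ∀ x, ¬ (A x = true ∧ B x = true)

/-- `(A, B)` is a complete disjoint coNP-pair relative to `X`. -/
def CompleteCoPair (X : Oracle) (A B : DecisionProblem) : Prop :=
  DisjointCoNPo X A B ∧ ∀ A' B', DisjointCoNPo X A' B' →
    ∃ f : OracleProc (List Bool) (List Bool), ∀ x,
      (A' x = true → A (f.run X x) = true) ∧ (B' x = true → B (f.run X x) = true)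

/-- The conjectures of Pudlák's list other than Q1, and (`tally`) the conjecture E ≠ NE. -/
inductive Conj
  | tally | con | conN | sat | tfnp | disjNP | disjCoNP | up

/-- The conjecture `c` holds relative to `X`. -/
def Holds (X : Oracle) : Conj → Prop
  | .tally => ¬ ∀ A ∈ NPo X, Tally A → A ∈ Po X
  | .con => ¬ ∃ K, CompleteRel X (coNPo X) K ∧ ∃ h, IsPOptimalRel X K h
  | .conN => ¬ ∃ K, CompleteRel X (coNPo X) K ∧ ∃ h, IsOptimalRel X K h
  | .sat => ¬ ∃ K, CompleteRel X (NPo X) K ∧ ∃ h, IsPOptimalRel X K h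
  | .tfnp => ¬ ∃ T : TFNPo X, T.IsComplete
  | .disjNP => ¬ ∃ A B, CompletePair X A B
  | .disjCoNP => ¬ ∃ A B, CompleteCoPair X A B
  | .up => ¬ ∃ U, CompleteRel X (UPo X) U

/-- Q1 relative to `X`: no language is complete for NP ∩ coNP. -/
def Q1 (X : Oracle) : Prop := ¬ ∃ L, CompleteRel X (NPo X ∩ coNPo X) L

end Pool.Agent.PudClass
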