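import Mathlib
import Pool.Agent.PudClass.Defs
import Pool.Agent.PudTal.T9
import Pool.Agent.PudOpt.O8
import Pool.Agent.PudSat.S7

set_option autoImplicit false

/-!
# Classification of the consequences of Q1
-/

namespace Pool.Agent.PudClass

open N68a2faeb N793a5b8e N487b59b3 Pool.Agent.Helper22 Pool.Agent.PudOr Pool.Agent.PudTal
  Pool.Agent.PudOpt
open Pool.Agent.Helper20.Cons (Tally Po)

/-- P has a complete language -/
theorem up_of_P {X : Oracle} (h : ∀ A ∈ UPo X, A ∈ Po X) : ∃ U, CompleteRel X (UPo X) U := by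
  have hg : FP fun a : List Bool × List Bool => a.1.headD false && a.2.isEmpty := by
    have h1 : FP fun a : List Bool × List Bool => a.1.headD false := FP.headD FP.fst _
    have h2 : FP fun a : List Bool × List Bool => a.2.isEmpty := FP.isEmpty FP.snd
    exact h1.and h2
  refine ⟨fun x => x.headD false, ⟨0, Pool.Agent.PudOr.pureProc _ hg, fun x => ?_, ?_⟩,
    fun A hA => ?_⟩
  · constructor
    · intro hx
      refine ⟨[], Nat.zero_le _, ?_⟩
      rw [Pool.Agent.PudOr.pureProc_run, Bool.and_eq_true]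
      exact ⟨hx, rfl⟩
    · rintro ⟨w, _, hw⟩
      rw [Pool.Agent.PudOr.pureProc_run, Bool.and_eq_true] at hw
      exact hw.1
  · intro x w w' hw hw' _ _
    rw [Polynomial.eval_zero, Nat.le_zero, List.length_eq_zero_iff] at hw hw'
    rw [hw, hw']
  · obtain ⟨M, hM⟩ := h A hA
    have hf : FP fun s : List Bool × Bool => [s.2] := FP.snd.cons (FP.const [])
    obtain ⟨f, hf'⟩ := Pool.Agent.Helper49.Cons.exists_post M (fun s => [s.2]) hf
    refine ⟨f, fun x => ?_⟩
    rw [hf', hM x]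
    rfl

theorem classification_of
    (R1 : ∀ X, (∃ K, CompleteRel X (coNPo X) K ∧ ∃ h, IsPOptimalRel X K h) →
      (∃ A B, CompleteCoPair X A B) → ∃ L, CompleteRel X (NPo X ∩ coNPo X) L)
    (R2 : ∀ X, (∃ K, CompleteRel X (NPo X) K ∧ ∃ h, IsPOptimalRel X K h) →
      (∃ A B, CompletePair X A B) → ∃ L, CompleteRel X (NPo X ∩ coNPo X) L)
    (R3 : ∀ X, (∃ T : TFNPo X, T.IsComplete) → ∃ A B, CompleteCoPair X A B)
    (R4 : ∀ X, (∃ K, CompleteRel X (NPo X) K ∧ ∃ h, IsPOptimalRel X K h) →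
      ∃ T : TFNPo X, T.IsComplete)
    (R5 : ∀ X, (∃ K, CompleteRel X (coNPo X) K ∧ ∃ h, IsOptimalRel X K h) →
      ∃ A B, CompletePair X A B)
    (R6 : ∀ X, (∃ K, CompleteRel X (coNPo X) K ∧ ∃ h, IsPOptimalRel X K h) →
      ∃ K, CompleteRel X (coNPo X) K ∧ ∃ h, IsOptimalRel X K h)
    (R7 : ∀ X, (∃ K, CompleteRel X (coNPo X) K ∧ ∃ h, IsPOptimalRel X K h) →
      ∃ U, CompleteRel X (UPo X) U)
    (R8 : ∀ X, (∀ A ∈ NPo X, Tally A → A ∈ Po X) →
      ∃ K, CompleteRel X (coNPo X) K ∧ ∃ h, IsPOptimalRel X K h)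
    (S : Set Conj) :
    (∀ X, Q1 X → ∃ c ∈ S, Holds X c) ↔
      (Conj.sat ∈ S ∨ Conj.tfnp ∈ S ∨ Conj.disjCoNP ∈ S) ∧
      (Conj.tally ∈ S ∨ Conj.con ∈ S ∨ Conj.conN ∈ S ∨ Conj.disjNP ∈ S) ∧
      (Conj.tally ∈ S ∨ Conj.con ∈ S ∨ Conj.sat ∈ S) := by
  constructor
  · intro h
    refine ⟨?_, ?_, ?_⟩
    · -- world 1: E = NE
      obtain ⟨X, htal, ⟨K, hK, hK', hopt⟩, hQ⟩ := Pool.Agent.PudTal.main
      have hcon : ∃ K, CompleteRel X (coNPo X) K ∧ ∃ h, IsPOptimalRel X K h :=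
        ⟨K, ⟨hK, hK'⟩, hopt⟩
      have hq : Q1 X := fun ⟨L, hL, hL'⟩ => hQ ⟨L, hL, hL'⟩
      obtain ⟨c, hc, hX⟩ := h X hq
      cases c
      · exact absurd htal hX
      · exact absurd hcon hX
      · exact absurd (R6 X hcon) hX
      · exact Or.inl hc
      · exact Or.inr (Or.inl hc)
      · exact absurd (R5 X (R6 X hcon)) hX
      · exact Or.inr (Or.inr hc)
      · exact absurd (R7 X hcon) hX
    · -- world 2: p-optimal proof system for NP, P = UP
      obtain ⟨X, ⟨K, hK, hK', hopt⟩, hU, hQ⟩ := Pool.Agent.PudSat.main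
      have hsat : ∃ K, CompleteRel X (NPo X) K ∧ ∃ h, IsPOptimalRel X K h :=
        ⟨K, ⟨hK, hK'⟩, hopt⟩
      have hq : Q1 X := fun ⟨L, hL, hL'⟩ => hQ ⟨L, hL, hL'⟩
      obtain ⟨c, hc, hX⟩ := h X hq
      cases c
      · exact Or.inl hc
      · exact Or.inr (Or.inl hc)
      · exact Or.inr (Or.inr (Or.inl hc))
      · exact absurd hsat hX
      · exact absurd (R4 X hsat) hX
      · exact Or.inr (Or.inr (Or.inr hc))
      · exact absurd (R3 X (R4 X hsat)) hX
      · exact absurd (up_of_P hU) hX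
    · -- world 3: optimal proof system for coNP
      obtain ⟨X, hT, ⟨K, hK, hK', hopt⟩, hU, hQ⟩ := Pool.Agent.PudOpt.main
      have hconN : ∃ K, CompleteRel X (coNPo X) K ∧ ∃ h, IsOptimalRel X K h :=
        ⟨K, ⟨hK, hK'⟩, hopt⟩
      have hq : Q1 X := fun ⟨L, hL, hL'⟩ => hQ ⟨L, hL, hL'⟩
      obtain ⟨c, hc, hX⟩ := h X hq
      cases c
      · exact Or.inl hc
      · exact Or.inr (Or.inl hc)
      · exact absurd hconN hX
      · exact Or.inr (Or.inr hc)
      · exact absurd hT hX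
      · exact absurd (R5 X hconN) hX
      · exact absurd (R3 X hT) hX
      · obtain ⟨U, hU1, hU2⟩ := hU
        exact absurd ⟨U, hU1, hU2⟩ hX
  · rintro ⟨h1, h2, h3⟩ X hQ
    by_contra hcon
    push Not at hcon
    have hn : ∀ c ∈ S, ¬ Holds X c := hcon
    have key : (∃ K, CompleteRel X (coNPo X) K ∧ ∃ h, IsPOptimalRel X K h) → False := by
      intro hc
      refine hQ (R1 X hc ?_)
      rcases h1 with h1 | h1 | h1
      · exact R3 X (R4 X (not_not.1 (hn _ h1)))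
      · exact R3 X (not_not.1 (hn _ h1))
      · exact not_not.1 (hn _ h1)
    rcases h3 with h3 | h3 | h3
    · exact key (R8 X (not_not.1 (hn _ h3)))
    · exact key (not_not.1 (hn _ h3))
    · have hc := not_not.1 (hn _ h3)
      rcases h2 with h2 | h2 | h2 | h2
      · exact key (R8 X (not_not.1 (hn _ h2)))
      · exact key (not_not.1 (hn _ h2))
      · exact hQ (R2 X hc (R5 X (not_not.1 (hn _ h2))))
      · exact hQ (R2 X hc (not_not.1 (hn _ h2)))

end Pool.Agent.PudClass
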