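import Mathlib
import Pool.Agent.PudClass.Defs
import Pool.Agent.Helper20.Rel.Univ

set_option autoImplicit false

/-!
# The implications between the conjectures relative to an arbitrary oracle
-/

namespace Pool.Agent.PudClass

open N68a2faeb N793a5b8e N487b59b3 Pool.Agent.Helper22 Pool.Agent.PudOr Pool.Agent.PudTal
  Pool.Agent.PudOpt

theorem R1 (X : Oracle) (h : ∃ K, CompleteRel X (coNPo X) K ∧ ∃ h, IsPOptimalRel X K h)
    (h' : ∃ A B, CompleteCoPair X A B) : ∃ L, CompleteRel X (NPo X ∩ coNPo X) L := by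
  obtain ⟨A, B, hAB⟩ := h'
  exact Pool.Agent.Helper20.Rel.complete_of_coNPpair h hAB

theorem R2 (X : Oracle) (h : ∃ K, CompleteRel X (NPo X) K ∧ ∃ h, IsPOptimalRel X K h)
    (h' : ∃ A B, CompletePair X A B) : ∃ L, CompleteRel X (NPo X ∩ coNPo X) L := by
  obtain ⟨A, B, hAB⟩ := h'
  exact Pool.Agent.Helper20.Rel.complete_of_NPpair h hAB

theorem R3 (X : Oracle) (h : ∃ T : TFNPo X, T.IsComplete) : ∃ A B, CompleteCoPair X A B := by
  obtain ⟨T, hT⟩ := h
  exact Pool.Agent.Helper20.Rel.completeCoPair_of_TFNP hT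

theorem R4 (X : Oracle) (h : ∃ K, CompleteRel X (NPo X) K ∧ ∃ h, IsPOptimalRel X K h) :
    ∃ T : TFNPo X, T.IsComplete := Pool.Agent.Helper20.Rel.completeTFNP_of_popt h

theorem R5 (X : Oracle) (h : ∃ K, CompleteRel X (coNPo X) K ∧ ∃ h, IsOptimalRel X K h) :
    ∃ A B, CompletePair X A B := Pool.Agent.Helper20.Rel.completePair_of_opt h

theorem R6 (X : Oracle) (h : ∃ K, CompleteRel X (coNPo X) K ∧ ∃ h, IsPOptimalRel X K h) :
    ∃ K, CompleteRel X (coNPo X) K ∧ ∃ h, IsOptimalRel X K h :=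
  Pool.Agent.Helper20.Rel.hasOptRel_of_hasPOptRel h

theorem R7 (X : Oracle) (h : ∃ K, CompleteRel X (coNPo X) K ∧ ∃ h, IsPOptimalRel X K h) :
    ∃ U, CompleteRel X (UPo X) U := Pool.Agent.Helper20.Rel.completeUP_of_popt h

end Pool.Agent.PudClass
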