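import Mathlib
import Pool.Agent.PudClass.Defs
import Pool.Agent.Helper20.Rel.Univ
import Pool.Agent.Helper22.OracleTally

set_option autoImplicit false

/-!
# If all tally languages of NP are in P, then coNP has a p-optimal proof system
-/

namespace Pool.Agent.PudClass

open Turing Function N487b59b3 N68a2faeb N793a5b8e Pool.Agent.Helper22
open Pool.Agent.PudOr Pool.Agent.PudTal Pool.Agent.PudOpt
open Pool.Agent.Helper20.Cons Pool.Agent.Helper49.Cons Pool.Agent.Helper20.Rel
open scoped Classical

variable {X : Oracle}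

/-- a pairing of numbers -/
def pr (a b : ℕ) : ℕ := (a + b) ^ 2 + a

theorem pr_inj {a b a' b' : ℕ} (h : pr a b = pr a' b') : a = a' ∧ b = b' := by
  unfold pr at h
  rcases lt_trichotomy (a + b) (a' + b') with h2 | h2 | h2
  · exfalso
    have h3 : (a + b + 1) ^ 2 ≤ (a' + b') ^ 2 := Nat.pow_le_pow_left h2 2
    nlinarith
  · rw [h2] at h
    omega
  · exfalso
    have h3 : (a' + b' + 1) ^ 2 ≤ (a + b) ^ 2 := Nat.pow_le_pow_left h2 2
    nlinarith

theorem pr_left (a b : ℕ) : a ≤ pr a b := Nat.le_add_left _ _

theorem pr_right (a b : ℕ) : b ≤ pr a b := by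
  unfold pr
  nlinarith [Nat.le_self_pow (n := 2) (by norm_num) (a + b)]

/-- the tally word for three lengths -/
def tc (u v t : List Bool) : List Bool := un (pr u.length (pr v.length t.length))

theorem tc_inj {u v t u' v' t' : List Bool} (h : tc u v t = tc u' v' t') :
    u.length = u'.length ∧ v.length = v'.length ∧ t.length = t'.length := by
  have h1 := congrArg List.length h
  rw [tc, tc, un_length, un_length] at h1
  obtain ⟨h2, h3⟩ := pr_inj h1
  exact ⟨h2, pr_inj h3⟩

section

variable {α : Type} [N487b59b3 α]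

theorem FP_pr {f g : α → List Bool} (hf : FP f) (hg : FP g) :
    FP fun a => un (pr (f a).length (g a).length) := by
  have h1 : FP fun a => un ((Polynomial.X ^ 2 : Polynomial ℕ).eval (f a ++ g a).length) :=
    (hf.append hg).un_poly _
  have h2 : FP fun a => un (f a).length := hf.un_length
  have h3 : (fun a => un (pr (f a).length (g a).length)) = fun a =>
      un ((Polynomial.X ^ 2 : Polynomial ℕ).eval (f a ++ g a).length) ++ un (f a).length := by
    funext a
    rw [← un_add]
    simp [pr]
  rw [h3]
  exact h1.append h2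

@[fun_prop]
theorem FP_tc {f g h : α → List Bool} (hf : FP f) (hg : FP g) (hh : FP h) :
    FP fun a => tc (f a) (g a) (h a) := by
  have h1 : FP fun a => un (pr (g a).length (h a).length) := FP_pr hg hh
  have h2 := FP_pr hf h1
  simpa only [un_length, tc] using h2

@[fun_prop]
theorem RP_tc {f g h : α → List Bool} (hf : RP X f) (hg : RP X g) (hh : RP X h) :
    RP X fun a => tc (f a) (g a) (h a) := by
  have h1 : FP fun p : List Bool × (List Bool × List Bool) => tc p.1 p.2.1 p.2.2 := by fun_prop
  exact (RP.of_FP h1).comp (hf.pair (hg.pair hh))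

end

/-- the value of the coded function number `|u|` at `y`, with the clock `|t|` -/
def ZZ (X : Oracle) (u y t : List Bool) : List Bool := UW X (cd (enumU u) (cd y (un t.length)))

theorem ZZ_RP {α : Type} [N487b59b3 α] {f g h : α → List Bool} (hf : RP X f) (hg : RP X g)
    (hh : RP X h) : RP X fun a => ZZ X (f a) (g a) (h a) := by
  have h1 : FP fun p : List Bool × (List Bool × List Bool) =>
      cd (enumU p.1) (cd p.2.1 (un p.2.2.length)) := by
    have h2 : FP fun p : List Bool × (List Bool × List Bool) => un p.2.2.length :=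
      FP.un_length (by fun_prop)
    fun_prop
  exact (UW_RP (X := X)).comp ((RP.of_FP h1).comp (hf.pair (hg.pair hh)))

theorem ZZ_bound (X : Oracle) : ∃ p : Polynomial ℕ, ∀ u y t : List Bool,
    (ZZ X u y t).length ≤ p.eval (2 * u.length + 2 * y.length + t.length + 2) := by
  obtain ⟨p, hp⟩ := (UW_RP (X := X)).bound
  refine ⟨p, fun u y t => (hp _).trans (poly_mono p ?_)⟩
  rw [cd_length, cd_length, un_length, enumU_eq]
  have := enum_length u.length
  omega

/-- the tally language of the bad triples -/
noncomputable def BB (X : Oracle) : DecisionProblem := fun x =>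
  decide (∃ u v t y w : List Bool, x = tc u v t ∧ y.length ≤ v.length ∧
    VV X (ZZ X u y t) w = true)

theorem BB_tally (X : Oracle) : Tally (BB X) := by
  intro x hx b hb
  rw [BB, decide_eq_true_eq] at hx
  obtain ⟨u, v, t, y, w, rfl, -⟩ := hx
  rw [tc, un, List.mem_replicate] at hb
  exact hb.2

theorem BB_mem (X : Oracle) : BB X ∈ NPo X := by
  obtain ⟨q, hq⟩ := ZZ_bound X
  refine mem_NPo_iff.2 ⟨q.comp (5 * Polynomial.X + 2) + 8 * Polynomial.X + 8, fun a =>
    weq a.1 (tc (cf a.2) (cf (cs a.2)) (cf (cs (cs a.2)))) &&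
    (decide ((cf (cs (cs (cs a.2)))).length ≤ (cf (cs a.2)).length) &&
    VV X (ZZ X (cf a.2) (cf (cs (cs (cs a.2)))) (cf (cs (cs a.2))))
      (cs (cs (cs (cs a.2))))), ?_, fun x => ?_⟩
  · have h1 : RP X fun a : List Bool × List Bool =>
        ZZ X (cf a.2) (cf (cs (cs (cs a.2)))) (cf (cs (cs a.2))) :=
      ZZ_RP (by fun_prop) (by fun_prop) (by fun_prop)
    have h2 : RP X fun a : List Bool × List Bool =>
        VV X (ZZ X (cf a.2) (cf (cs (cs (cs a.2)))) (cf (cs (cs a.2)))) (cs (cs (cs (cs a.2)))) :=
      (VV_RP (X := X)).comp (f := fun a : List Bool × List Bool =>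
        (ZZ X (cf a.2) (cf (cs (cs (cs a.2)))) (cf (cs (cs a.2))), cs (cs (cs (cs a.2)))))
        (h1.pair (by fun_prop))
    fun_prop
  · rw [BB, decide_eq_true_eq]
    constructor
    · rintro ⟨u, v, t, y, w, rfl, hy, hw⟩
      refine ⟨cd (un u.length) (cd (un v.length) (cd (un t.length) (cd y w))), ?_, ?_⟩
      · have h1 := VV_length hw
        have h2 := hq u y t
        have h3 : u.length ≤ (tc u v t).length := by
          rw [tc, un_length]; exact pr_left _ _
        have h4 : v.length ≤ (tc u v t).length := by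
          rw [tc, un_length]; exact (pr_left _ _).trans (pr_right _ _)
        have h5 : t.length ≤ (tc u v t).length := by
          rw [tc, un_length]; exact (pr_right _ _).trans (pr_right _ _)
        have h6 : q.eval (2 * u.length + 2 * y.length + t.length + 2) ≤
            q.eval (5 * (tc u v t).length + 2) := poly_mono q (by omega)
        simp only [cd_length, un_length, Polynomial.eval_add, Polynomial.eval_comp,
          Polynomial.eval_mul, Polynomial.eval_X, Polynomial.eval_ofNat]
        omega
      · simp only [cf_cd, cs_cd, Bool.and_eq_true, weq_iff, decide_eq_true_eq]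
        refine ⟨?_, ?_, ?_⟩
        · simp only [tc, un_length]
        · simpa using hy
        · simpa only [ZZ, enumU_eq, un_length] using hw
    · rintro ⟨a, -, ha⟩
      rw [Bool.and_eq_true, Bool.and_eq_true, weq_iff, decide_eq_true_eq] at ha
      exact ⟨_, _, _, _, _, ha.1, ha.2.1, ha.2.2⟩

/-- the coded verifier in `z` accepts no word -/
noncomputable def KN (X : Oracle) : DecisionProblem := fun z => !DA X z

theorem KN_iff {z : List Bool} : KN X z = true ↔ ∀ w, VV X z w = false := by
  simp [KN, DA]

theorem KN_complete (X : Oracle) : CompleteRel X (coNPo X) (KN X) := by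
  refine ⟨?_, fun A hA => ?_⟩
  · have h1 : (KN X)ᶜ = DA X := by
      funext z
      simp [KN]
    show (KN X)ᶜ ∈ NPo X
    rw [h1]
    exact DA_mem
  · obtain ⟨p, R, hR, h⟩ := mem_NPo_iff.1 (show Aᶜ ∈ NPo X from hA)
    obtain ⟨e, hef, he⟩ := exists_code_VV hR p
    refine ⟨OracleProc.ofFP e hef, fun x => ?_⟩
    show A x = KN X (e x)
    rw [Bool.eq_iff_iff, KN_iff]
    have h1 := h x
    rw [← not_iff_not] at h1
    constructor
    · intro hx w
      rw [← Bool.not_eq_true, he]
      rintro hw
      have h2 := (h x).2 ⟨w, hw⟩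
      simp [hx] at h2
    · intro hw
      by_contra hx
      have h2 : Aᶜ x = true := by simpa using hx
      obtain ⟨w, hw'⟩ := (h x).1 h2
      have := (he x w).2 hw'
      rw [hw w] at this
      exact absurd this (by simp)

theorem exists_KN : ∃ z, KN X z = true := by
  obtain ⟨e, _, he⟩ := exists_code_VV (X := X) (R := fun _ => false) (RP.const _) 0
  refine ⟨e [], KN_iff.2 fun w => ?_⟩
  rw [← Bool.not_eq_true, he]
  simp

/-- If all tally languages of NP are in P, then some complete language of coNP has a p-optimal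
proof system. -/
theorem R8 (X : Oracle) (h : ∀ A ∈ NPo X, Tally A → A ∈ Po X) :
    ∃ K, CompleteRel X (coNPo X) K ∧ ∃ h, IsPOptimalRel X K h := by
  obtain ⟨M, hM⟩ := h (BB X) (BB_mem X) (BB_tally X)
  obtain ⟨z₀, hz₀⟩ := exists_KN (X := X)
  -- the proof system
  have hMR := RP.run (X := X) M
  have hZ : RP X fun v : List Bool => ZZ X (cf v) (cf (cs v)) (cs (cs v)) :=
    ZZ_RP (by fun_prop) (by fun_prop) (by fun_prop)
  obtain ⟨H, hH⟩ := exists_FN (X := X) (g := fun v =>
    if M.run X (tc (cf v) (cf (cs v)) (cs (cs v))) = true then z₀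
    else ZZ X (cf v) (cf (cs v)) (cs (cs v))) (by
      have h1 : RP X fun v : List Bool => M.run X (tc (cf v) (cf (cs v)) (cs (cs v))) :=
        hMR.comp (by fun_prop)
      fun_prop)
  -- a sound function is simulated
  have key : ∀ g : List Bool → List Bool, RP X g → (∀ y, KN X (g y) = true) →
      ∃ k : List Bool → List Bool, FP k ∧ ∀ y, H.run X (k y) = g y := by
    intro g hg hgK
    obtain ⟨j, P, hj⟩ := exists_code_RP hg (fun y => y) FP.id (fun y => y) FP.id
    obtain ⟨a, rfl⟩ := enum_surj j
    refine ⟨fun y => cd (un a) (cd y (un (P.eval y.length))), ?_, fun y => ?_⟩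
    · have h1 : FP fun y : List Bool => un (P.eval y.length) := FP.un_poly FP.id _
      fun_prop
    · rw [hH]
      simp only [cf_cd, cs_cd]
      have h1 : ∀ y' : List Bool, y'.length ≤ y.length →
          ZZ X (un a) y' (un (P.eval y.length)) = g y' := by
        intro y' hy'
        rw [ZZ, enumU_eq, un_length, un_length]
        exact hj y' _ (by rw [un_length]; exact poly_mono P hy')
      have h2 : M.run X (tc (un a) y (un (P.eval y.length))) = false := by
        rw [← hM, ← Bool.not_eq_true, BB, decide_eq_true_eq]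
        rintro ⟨u, v, t, y', w, he, hy', hw⟩
        obtain ⟨e1, e2, e3⟩ := tc_inj he
        have h3 : ZZ X u y' t = ZZ X (un a) y' (un (P.eval y.length)) := by
          rw [ZZ, ZZ, enumU_eq, enumU_eq, ← e1, ← e3]
        rw [h3, h1 y' (by omega), KN_iff.1 (hgK y') w] at hw
        exact absurd hw (by simp)
      rw [h2]
      simp only [Bool.false_eq_true, if_false]
      exact h1 y le_rfl
  refine ⟨KN X, KN_complete X, H, fun z => ⟨fun hz => ?_, ?_⟩, fun g hg => ?_⟩
  · obtain ⟨k, -, hk⟩ := key (fun _ => z) (RP.const _) fun _ => hz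
    exact ⟨k [], hk []⟩
  · rintro ⟨v, rfl⟩
    rw [hH]
    beta_reduce
    split_ifs with h1
    · exact hz₀
    · rw [← hM, BB, decide_eq_true_eq] at h1
      rw [KN_iff]
      intro w
      rw [← Bool.not_eq_true]
      intro hw
      exact h1 ⟨_, _, _, _, w, rfl, le_rfl, hw⟩
  · obtain ⟨k, hkF, hk⟩ := key (g.run X) (RP.run g) fun y => (hg _).2 ⟨y, rfl⟩
    exact ⟨OracleProc.ofFP k hkF, fun y => hk y⟩

end Pool.Agent.PudClass
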